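import Pool.Agent.Helper1.KA.General

set_option autoImplicit false

/-!
Project KA (MP_0b9e0b_ag), KA-1, second part: good points, restriction of a point to its field.
-/

namespace Pool.Agent.Helper1.KA

open Pool.Agent.Helper16
open Pool.Agent.Helper1.KL (Var VarF Key key fld spec cyc relations rat CH coef Idx)
open Pool.Agent.Helper1.KL (aff xc yc tr ec red xpt perp Prp ratf Vert Con At0 Quo cls IT RT)
open Pool.Agent.Helper1.KL (key_eq_iff getD_map key_map mem_fld getD_mem_fld fld_eq_range fld_map
  trdeg_fld_map restr restr_map key_restr fld_restr trdeg_fld_restr exists_hom_of_key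
  trdeg_eq_of_key charP_ratFunc charP_alg cast_pow_p)
open Pool.Agent.Helper1.KL (map_cast tr_map xc_map yc_map ec_map red_map key_red_map
  key_red_restr fld_xpt_le xc_mem)

variable {k : Type} [Field k] {p a : ℕ} {n : ℕ} {c : Fin n → k} {r : ℕ}

theorem cl_eq_of_key {N N' : Type} [Field N] [Field N'] [Algebra (RatFunc k) N]
    [Algebra (RatFunc k) N'] {z : Fin n ⊕ Fin n → Option N} {z' : Fin n ⊕ Fin n → Option N'}
    (h : key (RatFunc k) z = key (RatFunc k) z') : cl p a c r z = cl p a c r z' := by
  unfold cl cls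
  rw [h]

section map

variable {N N' : Type} [Field N] [Field N'] [Algebra (RatFunc k) N] [Algebra (RatFunc k) N']

theorem SH_map [Fact p.Prime] [CharP k p] (φ : N →ₐ[RatFunc k] N') (H : Finset (Fin n → ZMod p))
    (z : Fin n ⊕ Fin n → Option N) :
    SH p a c r H (fun j => (z j).map φ) = SH p a c r H z := by
  unfold SH
  refine Finset.sum_congr rfl fun h _ => ?_
  rw [tr_map]
  exact cl_eq_of_key (key_map φ _)

theorem SH_restr [Fact p.Prime] [CharP k p] (H : Finset (Fin n → ZMod p))
    (z : Fin n ⊕ Fin n → Option N) :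
    SH p a c r H (restr (RatFunc k) z) = SH p a c r H z := by
  rw [← SH_map (fld (RatFunc k) z).val H (restr (RatFunc k) z), restr_map]

theorem Xc_map [Fact p.Prime] [CharP k p] (φ : N →ₐ[RatFunc k] N') (ρ : Fin n → ZMod p)
    (z : Fin n ⊕ Fin n → Option N) : Xc a c ρ (fun j => (z j).map φ) = φ (Xc a c ρ z) := by
  unfold Xc
  rw [map_sum]
  exact Finset.sum_congr rfl fun i _ => by
    rw [xc_map, map_mul, map_mul, map_cast φ, map_pow, AlgHom.commutes]

theorem Bc_map [Fact p.Prime] [CharP k p] (φ : N →ₐ[RatFunc k] N') (ρ : Fin n → ZMod p)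
    (z : Fin n ⊕ Fin n → Option N) : Bc ρ (fun j => (z j).map φ) = φ (Bc ρ z) := by
  unfold Bc
  rw [map_sum]
  exact Finset.sum_congr rfl fun i _ => by rw [xc_map, map_mul, map_cast φ]

theorem Good.map {I : Finset (Fin n)} {z : Fin n ⊕ Fin n → Option N} (h : Good p a c r I z)
    (φ : N →ₐ[RatFunc k] N') : Good p a c r I (fun j => (z j).map φ) where
  mem := (XV_map φ z).2 h.mem
  aff := fun i hi h0 => h.aff i hi (by simpa using h0)
  inf := fun i hi => by rw [h.inf i hi]; rfl
  dim := by rw [trdeg_fld_map]; exact h.dim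

theorem Good.restr {I : Finset (Fin n)} {z : Fin n ⊕ Fin n → Option N} (h : Good p a c r I z) :
    Good p a c r I (KL.restr (RatFunc k) z) where
  mem := XV_restr h.mem
  aff := fun i hi h0 => h.aff i hi (by
    have := congrFun (restr_map (F := RatFunc k) z) (Sum.inr i)
    rw [← this, h0]; rfl)
  inf := fun i hi => by
    have := congrFun (restr_map (F := RatFunc k) z) (Sum.inl i)
    rw [h.inf i hi] at this
    exact Option.map_eq_none_iff.1 this
  dim := by rw [trdeg_fld_restr]; exact h.dim

theorem Good.trdeg_fld {I : Finset (Fin n)} {z : Fin n ⊕ Fin n → Option N}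
    (h : Good p a c r I z) : Algebra.trdeg (RatFunc k) (fld (RatFunc k) z) = r := h.dim

end map

section good

variable {N : Type} [Field N] [Algebra (RatFunc k) N] {I : Finset (Fin n)}
  {z : Fin n ⊕ Fin n → Option N}

theorem Good.of_mem (h : Good p a c r I z) {i : Fin n} (hi : i ∈ I) :
    z (Sum.inl i) = some (xc z i) ∧ z (Sum.inr i) = some (yc z i) ∧
      yc z i ^ p - yc z i = algebraMap (RatFunc k) N RatFunc.X *
        algebraMap (RatFunc k) N (RatFunc.C (c i)) * xc z i ^ a + xc z i := by
  rcases h.mem.cases i with ⟨-, h1, -⟩ | h1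
  · exact (h.aff i hi h1).elim
  · exact h1

theorem Good.of_notMem (h : Good p a c r I z) {i : Fin n} (hi : i ∉ I) :
    z (Sum.inl i) = none ∧ z (Sum.inr i) = none ∧ xc z i = 0 ∧ yc z i = 0 := by
  rcases h.mem.cases i with h1 | ⟨h1, -⟩
  · exact h1
  · rw [h.inf i hi] at h1
    cases h1

theorem Good.aff_eq (h : Good p a c r I z) : KL.aff z = I := by
  classical
  ext i
  unfold KL.aff
  rw [Finset.mem_filter_univ]
  constructor
  · intro h1
    by_contra hi
    exact h1 (h.of_notMem hi).2.1
  · exact h.aff i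

/-- A point of `X` is good for the set of its affine coordinates. -/
theorem Good.of_XV (hz : XV p a c N z) (hr : Algebra.trdeg (RatFunc k) (fld (RatFunc k) z) = r) :
    Good p a c r (KL.aff z) z := by
  classical
  refine ⟨hz, fun i hi => ?_, fun i hi => ?_, hr⟩
  · unfold KL.aff at hi
    rwa [Finset.mem_filter_univ] at hi
  · unfold KL.aff at hi
    rw [Finset.mem_filter_univ, not_not] at hi
    rcases hz.cases i with ⟨h1, -⟩ | ⟨-, h2, -⟩
    · exact h1
    · rw [hi] at h2
      cases h2

/-- If a point of `X` is not good for `I` although it looks like it then it has less affine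
coordinates. -/
theorem cl_mem_GG {N : Type} [Field N] [Algebra (RatFunc k) N] {z : Fin n ⊕ Fin n → Option N}
    (hz : XV p a c N z) (hr : Algebra.trdeg (RatFunc k) (fld (RatFunc k) z) = r) {m : ℕ}
    (hm : (KL.aff z).card < m) : cl p a c r z ∈ GG p a c r m :=
  Submodule.subset_span ⟨N, inferInstance, inferInstance, z, hz, hr, hm, rfl⟩

end good

section alg

variable {N : Type} [Field N] [Algebra (RatFunc k) N] {z : Fin n ⊕ Fin n → Option N}

/-- The coordinates `y i` are integral over the field of the `x i`. -/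
theorem isIntegral_yc [Fact p.Prime] (hz : XV p a c N z)
    (E : IntermediateField (RatFunc k) N) (i : Fin n) (hi : xc z i ∈ E) :
    IsIntegral E (yc z i) := by
  have hp := (Fact.out : p.Prime)
  rcases hz.cases i with ⟨-, -, -, h3⟩ | ⟨-, -, h⟩
  · rw [h3]
    exact isIntegral_zero
  · set d : E := algebraMap (RatFunc k) E RatFunc.X *
      algebraMap (RatFunc k) E (RatFunc.C (c i)) * (⟨xc z i, hi⟩) ^ a + ⟨xc z i, hi⟩ with hd
    refine ⟨Polynomial.X ^ p - Polynomial.X - Polynomial.C d, ?_, ?_⟩
    · have h1 : (Polynomial.X ^ p - Polynomial.X - Polynomial.C d : Polynomial E) =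
          Polynomial.X ^ p - (Polynomial.X + Polynomial.C d) := by ring
      rw [h1]
      refine Polynomial.monic_X_pow_sub ?_
      rw [Polynomial.degree_X_add_C]
      exact_mod_cast hp.one_lt
    · have h2 : algebraMap E N d = algebraMap (RatFunc k) N RatFunc.X *
        algebraMap (RatFunc k) N (RatFunc.C (c i)) * xc z i ^ a + xc z i := rfl
      simp only [Polynomial.eval₂_sub, Polynomial.eval₂_pow, Polynomial.eval₂_X,
        Polynomial.eval₂_C, h2]
      rw [h, sub_self]

/-- The field of a point of `X` is algebraic over the field generated by the `x i`. -/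
theorem fld_isAlgebraic [Fact p.Prime] (hz : XV p a c N z)
    (E : IntermediateField (RatFunc k) N) (hE : ∀ i, xc z i ∈ E) (u : N)
    (hu : u ∈ fld (RatFunc k) z) : IsAlgebraic E u := by
  have h1 : fld (RatFunc k) z ≤ (algebraicClosure E N).restrictScalars (RatFunc k) := by
    rw [fld_eq_range, IntermediateField.adjoin_le_iff]
    rintro _ ⟨j, rfl⟩
    rcases j with i | i
    · change xc z i ∈ algebraicClosure E N
      exact (algebraicClosure E N).algebraMap_mem ⟨xc z i, hE i⟩
    · change yc z i ∈ algebraicClosure E N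
      rw [mem_algebraicClosure_iff']
      exact isIntegral_yc hz E i (hE i)
  exact mem_algebraicClosure_iff.1 (h1 hu)

/-- The dimension of a point is the transcendence degree of the field of the `x i`. -/
theorem trdeg_xpt [Fact p.Prime] (hz : XV p a c N z) :
    Algebra.trdeg (RatFunc k) (fld (RatFunc k) (xpt z)) =
      Algebra.trdeg (RatFunc k) (fld (RatFunc k) z) := by
  have hle := fld_xpt_le (k := k) z
  let _ : Algebra (fld (RatFunc k) (xpt z)) (fld (RatFunc k) z) :=
    (IntermediateField.inclusion hle).toAlgebra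
  have hst : IsScalarTower (RatFunc k) (fld (RatFunc k) (xpt z)) (fld (RatFunc k) z) :=
    IsScalarTower.of_algebraMap_eq fun u => ((IntermediateField.inclusion hle).commutes u).symm
  have halg : Algebra.IsAlgebraic (fld (RatFunc k) (xpt z)) (fld (RatFunc k) z) := by
    refine ⟨fun u => ?_⟩
    have h1 := fld_isAlgebraic hz (fld (RatFunc k) (xpt z)) (xc_mem z) u.1 u.2
    obtain ⟨P, hP0, hP⟩ := h1
    refine ⟨P, hP0, ?_⟩
    apply (fld (RatFunc k) z).val.injective
    rw [map_zero, ← hP]
    change (fld (RatFunc k) z).val.toRingHom _ = _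
    rw [Polynomial.aeval_def, Polynomial.aeval_def, Polynomial.hom_eval₂]
    rfl
  have h2 := trdeg_add_eq (RatFunc k) (fld (RatFunc k) (xpt z)) (A := fld (RatFunc k) z)
  have h3 : Algebra.trdeg (fld (RatFunc k) (xpt z)) (fld (RatFunc k) z) = 0 := trdeg_eq_zero
  rw [← h2, h3, add_zero]

end alg

end Pool.Agent.Helper1.KA
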