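import Pool.Agent.Helper1.KA.Stmts2
import Pool.Agent.Helper1.KA.GeneralB
import Pool.Agent.Helper1.KL.KFin

set_option autoImplicit false
set_option linter.unusedSectionVars false

/-!
Project KA (MP_0b9e0b_ag), KA-14: the assembly.
-/

namespace Pool.Agent.Helper1.KA

open Pool.Agent.Helper16
open Pool.Agent.Helper1.KL (Var VarF Key key fld spec cyc relations rat CH coef Idx)
open Pool.Agent.Helper1.KL (aff xc yc tr ec red xpt perp Prp ratf Vert Con At0 Quo cls IT RT)
open Pool.Agent.Helper1.KL (tau IT_tau RT_tau tau_mem_Idx LinStep)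

variable {k : Type} [Field k] {p a : ℕ} [Fact p.Prime] [CharP k p] {n : ℕ} {c : Fin n → k} {r : ℕ}

/-- The image of the cycles on `YV`. -/
theorem SP_le_map {τ : Fin n → Option (ZMod p)}
    {Ψ : (Key k (Fin n) →₀ ℚ) →ₗ[ℚ] QX p a c r}
    (hΨ : ∀ (N : Type) [Field N] [Algebra k N] [Algebra (RatFunc k) N]
      [IsScalarTower k (RatFunc k) N]
      (z : Fin n ⊕ Fin n → Option N), Good p a c r (IT τ) z → Vert k r z →
      Xc a c (RT τ) z = 0 → Bc (RT τ) z = 0 → ec (RT τ) z = 1 →
      YV a c τ N (xpt z) ∧ Algebra.trdeg k (fld k (xpt z)) = r ∧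
      SS p a c r (RT τ) z ∈ Submodule.span ℚ {Ψ (Finsupp.single (key k (xpt z)) 1)}) :
    SP p a c r (IT τ) (RT τ) (P1 k p a c r (RT τ)) ≤ (cyc (YV a c τ) r).map Ψ := by
  unfold SP
  rw [Submodule.span_le]
  rintro _ ⟨N, _, _, _, _, z, hz, ⟨h1, h2, h3, h4⟩, rfl⟩
  obtain ⟨h5, h6, h7⟩ := hΨ N z hz h1 h2 h3 h4
  refine (Submodule.span_le.2 ?_) h7
  rw [Set.singleton_subset_iff]
  refine Submodule.mem_map_of_mem (Submodule.subset_span ?_)
  exact ⟨N, inferInstance, inferInstance, xpt z, h5, h6, rfl⟩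

open scoped Classical in
/-- The classes of the coordinate subvarieties. -/
noncomputable def TT (p a : ℕ) [Fact p.Prime] {n : ℕ} (c : Fin n → k) (r : ℕ)
    (I : Finset (Fin n)) : QX p a c r :=
  if h : ∃ q, ∃ (N : Type) (_ : Field N) (_ : Algebra (RatFunc k) N)
    (z : Fin n ⊕ Fin n → Option N), Good p a c r I z ∧ q = SS p a c r 0 z then h.choose else 0

theorem SS_zero_eq (h0' : Mod0' k p a c r) {I : Finset (Fin n)} (hr : r = I.card) {N : Type}
    [Field N] [Algebra (RatFunc k) N] {z : Fin n ⊕ Fin n → Option N} (hz : Good p a c r I z) :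
    SS p a c r 0 z = TT p a c r I := by
  have h : ∃ q, ∃ (N : Type) (_ : Field N) (_ : Algebra (RatFunc k) N)
    (z : Fin n ⊕ Fin n → Option N), Good p a c r I z ∧ q = SS p a c r 0 z :=
    ⟨_, N, inferInstance, inferInstance, z, hz, rfl⟩
  unfold TT
  rw [dif_pos h]
  obtain ⟨N', _, _, z', hz', h1⟩ := h.choose_spec
  rw [h1]
  exact h0' N N' I z z' hr hz hz'

theorem SP_zero_le (h0 : Mod0 k p a c r) (h0' : Mod0' k p a c r) (hdim : ModDim k p a c r)
    (I : Finset (Fin n)) :
    SP p a c r I 0 (fun _ _ _ _ _ => True) ≤ GG p a c r I.card ⊔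
      (if r = I.card then Submodule.span ℚ {TT p a c r I} else ⊥) := by
  unfold SP
  rw [Submodule.span_le]
  rintro _ ⟨N, _, _, _, _, z, hz, -, rfl⟩
  have h1 := hdim N I z hz
  rcases h1.lt_or_eq with h2 | h2
  · exact Submodule.mem_sup_left (h0 N I z h2 hz)
  · rw [if_pos h2]
    refine Submodule.mem_sup_right ?_
    rw [SS_zero_eq h0' h2 hz]
    exact Submodule.mem_span_singleton_self _

theorem TT_span_rank (m : ℕ) :
    Module.rank ℚ (⨆ (I : Finset (Fin n)) (_ : I.card = m),
      (if r = I.card then Submodule.span ℚ {TT p a c r I} else ⊥) : Submodule ℚ (QX p a c r)) ≤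
      ((if r = m then n.choose m else 0 : ℕ) : Cardinal) := by
  classical
  by_cases hr : r = m
  · rw [if_pos hr]
    set S : Finset (QX p a c r) := (Finset.powersetCard m Finset.univ).image (TT p a c r) with hS
    have h1 : (⨆ (I : Finset (Fin n)) (_ : I.card = m),
        (if r = I.card then Submodule.span ℚ {TT p a c r I} else ⊥) : Submodule ℚ (QX p a c r)) ≤
        Submodule.span ℚ (S : Set (QX p a c r)) := by
      refine iSup_le fun I => iSup_le fun hI => ?_
      rw [if_pos (hr.trans hI.symm)]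
      refine Submodule.span_mono ?_
      rw [Set.singleton_subset_iff, Finset.mem_coe, hS, Finset.mem_image]
      exact ⟨I, by simp [hI], rfl⟩
    refine (Submodule.rank_mono h1).trans ((rank_span_finset_le _).trans ?_)
    rw [Nat.cast_le]
    refine Finset.card_image_le.trans ?_
    rw [Finset.card_powersetCard, Finset.card_univ, Fintype.card_fin]
  · rw [if_neg hr]
    have h1 : (⨆ (I : Finset (Fin n)) (_ : I.card = m),
        (if r = I.card then Submodule.span ℚ {TT p a c r I} else ⊥) : Submodule ℚ (QX p a c r)) = ⊥ := by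
      rw [eq_bot_iff]
      refine iSup_le fun I => iSup_le fun hI => ?_
      rw [if_neg (by rw [hI]; exact hr)]
    rw [h1]
    simp

open scoped Classical in
theorem step (hdec : ModDec k p a c r) (hcomb : ModComb k p a c r) (hdim : ModDim k p a c r)
    (h0 : Mod0 k p a c r) (h0' : Mod0' k p a c r) (hpsi : ∀ τ, ModPsi k p a c r τ) (hlin : LinStep)
    (m : ℕ) :
    Module.rank ℚ (GG p a c r (m + 1)) ≤ Module.rank ℚ (GG p a c r m) +
      ((if r = m then n.choose m else 0 : ℕ) : Cardinal) +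
      ∑ τ : Fin n → Option (ZMod p) with τ ∈ Idx p n ∧ (IT τ).card = m,
        Module.rank ℚ (CHY a c τ r) := by
  choose Ψ hΨ1 hΨ2 using hpsi
  refine hlin (Key k (Fin n) →₀ ℚ) (QX p a c r) (Fin n → Option (ZMod p)) (GG p a c r m)
    (GG p a c r (m + 1)) (⨆ (I : Finset (Fin n)) (_ : I.card = m),
      (if r = I.card then Submodule.span ℚ {TT p a c r I} else ⊥))
    (if r = m then n.choose m else 0)
    ({τ : Fin n → Option (ZMod p) | τ ∈ Idx p n ∧ (IT τ).card = m} : Finset _)
    (fun τ => cyc (YV a c τ) r)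
    (fun τ => rat (YV a c τ)
      (fun N _ _ x f => YV a c τ N x ∨ (AV a c τ N x ∧ f = Bfun τ x)) r)
    Ψ (TT_span_rank m) ?_ ?_
  · intro τ hτ c hc
    rw [Finset.mem_filter_univ] at hτ
    rw [← hτ.2]
    exact hΨ2 τ c hc
  · refine (hdec m).trans (sup_le (le_sup_left.trans le_sup_left) ?_)
    refine iSup_le fun I => iSup_le fun hI => ?_
    refine (hcomb I).trans ?_
    rw [hI]
    refine sup_le (sup_le (le_sup_left.trans le_sup_left) ?_) ?_
    · refine (SP_zero_le h0 h0' hdim I).trans ?_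
      rw [hI]
      refine le_sup_of_le_left (sup_le_sup le_rfl ?_)
      refine le_iSup_of_le I (le_iSup_of_le hI ?_)
      rw [hI]
    · refine iSup_le fun ρ => iSup_le fun hρ0 => iSup_le fun hρI => ?_
      refine le_sup_of_le_right ?_
      refine le_iSup_of_le (tau I ρ) (le_iSup_of_le ?_ ?_)
      · rw [Finset.mem_filter_univ]
        exact ⟨tau_mem_Idx I ρ hρI hρ0, by rw [IT_tau, hI]⟩
      · have h1 := SP_le_map (a := a) (c := c) (r := r) (hΨ1 (tau I ρ))
        rw [IT_tau, RT_tau I ρ hρI] at h1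
        exact h1

open scoped Classical in
theorem rank_GG_le (hdec : ModDec k p a c r) (hcomb : ModComb k p a c r) (hdim : ModDim k p a c r)
    (h0 : Mod0 k p a c r) (h0' : Mod0' k p a c r) (hpsi : ∀ τ, ModPsi k p a c r τ) (hlin : LinStep)
    (m : ℕ) :
    Module.rank ℚ (GG p a c r m) ≤ ((if r < m then n.choose r else 0 : ℕ) : Cardinal) +
      ∑ τ : Fin n → Option (ZMod p) with τ ∈ Idx p n ∧ (IT τ).card < m,
        Module.rank ℚ (CHY a c τ r) := by
  induction m with
  | zero =>
    have h1 : GG p a c r 0 = ⊥ := by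
      unfold GG
      rw [Submodule.span_eq_bot]
      rintro _ ⟨N, _, _, z, -, -, h, -⟩
      exact (Nat.not_lt_zero _ h).elim
    rw [h1]
    simp
  | succ m ih =>
    refine (step hdec hcomb hdim h0 h0' hpsi hlin m).trans ?_
    have h2 : ({τ : Fin n → Option (ZMod p) | τ ∈ Idx p n ∧ (IT τ).card < m + 1} : Finset _) =
        ({τ : Fin n → Option (ZMod p) | τ ∈ Idx p n ∧ (IT τ).card < m} : Finset _) ∪
        ({τ : Fin n → Option (ZMod p) | τ ∈ Idx p n ∧ (IT τ).card = m} : Finset _) := by
      ext τ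
      simp only [Finset.mem_union, Finset.mem_filter_univ]
      rw [Nat.lt_succ_iff_lt_or_eq]
      tauto
    have h3 : Disjoint
        ({τ : Fin n → Option (ZMod p) | τ ∈ Idx p n ∧ (IT τ).card < m} : Finset _)
        ({τ : Fin n → Option (ZMod p) | τ ∈ Idx p n ∧ (IT τ).card = m} : Finset _) := by
      rw [Finset.disjoint_left]
      intro τ h4 h5
      rw [Finset.mem_filter_univ] at h4 h5
      omega
    rw [h2, Finset.sum_union h3]
    have h4 : ((if r < m + 1 then n.choose r else 0 : ℕ) : Cardinal.{0}) =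
        ((if r < m then n.choose r else 0 : ℕ) : Cardinal) +
        ((if r = m then n.choose m else 0 : ℕ) : Cardinal) := by
      rw [← Nat.cast_add]
      congr 1
      by_cases h5 : r < m
      · rw [if_pos h5, if_pos (by omega), if_neg (by omega), add_zero]
      · by_cases h6 : r = m
        · rw [if_neg h5, if_pos h6, if_pos (by omega), zero_add, h6]
        · rw [if_neg h5, if_neg h6, if_neg (by omega)]
    rw [h4]
    refine (add_le_add (add_le_add ih le_rfl) le_rfl).trans (le_of_eq ?_)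
    ring

theorem rank_CHX_le : Module.rank ℚ (CHX p a c r) ≤ Module.rank ℚ (GG p a c r (n + 1)) := by
  let R := rat (XV p a c) (fun N _ _ z _ => XV p a c N z) r
  let C := cyc (XV p a c) r
  let f : C →ₗ[ℚ] QX p a c r := R.mkQ.comp C.subtype
  have hker : LinearMap.ker f = R.submoduleOf C := by
    ext q
    simp only [f, LinearMap.mem_ker, LinearMap.comp_apply, Submodule.subtype_apply,
      Submodule.mkQ_apply, Submodule.Quotient.mk_eq_zero, Submodule.submoduleOf,
      Submodule.mem_comap]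
  have e1 : CHX p a c r ≃ₗ[ℚ] LinearMap.range f :=
    (Submodule.quotEquivOfEq _ _ hker.symm).trans f.quotKerEquivRange
  rw [e1.rank_eq]
  refine Submodule.rank_mono ?_
  rintro _ ⟨⟨q, hq⟩, rfl⟩
  change R.mkQ q ∈ _
  have hq' : q ∈ cyc (XV p a c) r := hq
  unfold cyc at hq'
  refine Submodule.span_induction (p := fun q _ => R.mkQ q ∈ GG p a c r (n + 1)) ?_ ?_ ?_ ?_ hq'
  · rintro _ ⟨N, _, _, z, hz, hr, rfl⟩
    refine Submodule.subset_span ⟨N, inferInstance, inferInstance, z, hz, hr, ?_, rfl⟩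
    refine (Finset.card_le_univ _).trans_lt ?_
    rw [Fintype.card_fin]
    exact Nat.lt_succ_self n
  · rw [map_zero]
    exact zero_mem _
  · intro x y _ _ hx hy
    rw [map_add]
    exact add_mem hx hy
  · intro d x _ hx
    rw [map_smul]
    exact Submodule.smul_mem _ d hx

/-- The assembly. -/
theorem main_of (hdec : ModDec k p a c r) (hcomb : ModComb k p a c r) (hdim : ModDim k p a c r)
    (h0 : Mod0 k p a c r) (h0' : Mod0' k p a c r) (hpsi : ∀ τ, ModPsi k p a c r τ) (hlin : LinStep) :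
    Main k p a n c r := by
  classical
  unfold Main
  refine rank_CHX_le.trans ((rank_GG_le hdec hcomb hdim h0 h0' hpsi hlin (n + 1)).trans ?_)
  refine add_le_add ?_ ?_
  · rw [Nat.cast_le]
    split_ifs
    · exact le_rfl
    · exact Nat.zero_le _
  · refine Finset.sum_le_sum_of_subset_of_nonneg ?_ fun _ _ _ => zero_le
    intro τ hτ
    rw [Finset.mem_filter_univ] at hτ ⊢
    exact hτ.1

end Pool.Agent.Helper1.KA
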