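import Pool.Agent.Helper1.KA.Base
import Pool.Agent.Helper1.KL.Stmts

set_option autoImplicit false

/-!
Project KA (MP_0b9e0b_ag): the statements of the modules. They are those of `KL.Stmts` with
`∑ ρ_i x_i` replaced by `∑ ρ_i c_i x_i ^ a` and `∑ ρ_i b_i / x_i` replaced by `∑ ρ_i x_i`.
-/

namespace Pool.Agent.Helper1.KA

open Pool.Agent.Helper16
open Pool.Agent.Helper1.KL (Var VarF Key key fld spec cyc relations rat CH coef Idx)
open Pool.Agent.Helper1.KL (aff xc yc tr ec red xpt perp Prp ratf Vert Con At0 Quo cls IT RT)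

variable (k : Type) [Field k] (p a : ℕ) [Fact p.Prime] [CharP k p] {n : ℕ} (c : Fin n → k) (r : ℕ)

/-- KA-2. A relation, summed over the translations in `H`, with only positivity used. -/
def ModPos : Prop :=
  ∀ (M : Type) [Field M] [Algebra (RatFunc k) M], Algebra.EssFiniteType (RatFunc k) M →
    Algebra.trdeg (RatFunc k) M = r + 1 →
    ∀ z : Fin n ⊕ Fin n → Option M, XV p a c M z → ∀ f : M, f ≠ 0 →
    ∀ (H : Finset (Fin n → ZMod p)) (W : Submodule ℚ (QX p a c r)) (α : QX p a c r),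
    (∀ v : Place (RatFunc k) M, v.ord f ≠ 0 → XV p a c v.resField (spec v z) →
      Algebra.trdeg (RatFunc k) (fld (RatFunc k) (spec v z)) = r →
      SH p a c r H (spec v z) ∈ W ∨ (0 < v.ord f ∧ SH p a c r H (spec v z) = α)) →
    (∃ v : Place (RatFunc k) M, 0 < v.ord f ∧ XV p a c v.resField (spec v z) ∧
      Algebra.trdeg (RatFunc k) (fld (RatFunc k) (spec v z)) = r ∧
      SH p a c r H (spec v z) = α) → α ∈ W

/-- KA-4. The sum `SS ρ z` depends only on the reduced point, and so does the relative degree. -/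
def ModS : Prop :=
  ∀ (N N' : Type) [Field N] [Field N'] [Algebra (RatFunc k) N] [Algebra (RatFunc k) N']
    (z : Fin n ⊕ Fin n → Option N) (z' : Fin n ⊕ Fin n → Option N') (ρ : Fin n → ZMod p),
    XV p a c N z → XV p a c N' z' → key (RatFunc k) (red ρ z) = key (RatFunc k) (red ρ z') →
    SS p a c r ρ z = SS p a c r ρ z' ∧
    (fld (RatFunc k) (red ρ z)).relfinrank (fld (RatFunc k) z) =
      (fld (RatFunc k) (red ρ z')).relfinrank (fld (RatFunc k) z')

/-- KA-5. Existence of a point with given coordinates `x` and given `e` over a finite separable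
extension. -/
def ModLift : Prop :=
  ∀ (L : Type) [Field L] [Algebra (RatFunc k) L] (I : Finset (Fin n)) (ρ : Fin n → ZMod p)
    (x : Fin n → L) (ε : L), (∀ i ∉ I, ρ i = 0) → (ρ = 0 → ε = 0) →
    ε ^ p - ε = algebraMap (RatFunc k) L RatFunc.X *
        ∑ i ∈ I, (ρ i).cast * algebraMap (RatFunc k) L (RatFunc.C (c i)) * x i ^ a +
      ∑ i ∈ I, (ρ i).cast * x i →
    ∃ (M : Type) (_ : Field M) (_ : Algebra L M) (_ : Algebra (RatFunc k) M)
      (_ : IsScalarTower (RatFunc k) L M) (_ : FiniteDimensional L M) (_ : Algebra.IsSeparable L M)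
      (z : Fin n ⊕ Fin n → Option M), XV p a c M z ∧
      (∀ i ∈ I, z (Sum.inl i) = some (algebraMap L M (x i)) ∧ z (Sum.inr i) ≠ none) ∧
      (∀ i ∉ I, z (Sum.inl i) = none) ∧ ec ρ z = algebraMap L M ε

/-- KA-6. The homotopy lemma. `N` is the field of the point `z`, and `κ` is a homomorphism of
`k(t)` to `N(s)` over `k`, `x' i` and `ε` in `N(s)` are the coordinates of a moving point which at
`s = 0` specialises to `z`. -/
def ModHom : Prop :=
  ∀ (N : Type) [Field N] [Algebra k N] [Algebra (RatFunc k) N] [IsScalarTower k (RatFunc k) N]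
    (I : Finset (Fin n)) (z : Fin n ⊕ Fin n → Option N) (ρ : Fin n → ZMod p)
    (κ : RatFunc k →+* RatFunc N) (x' : Fin n → RatFunc N) (ε : RatFunc N)
    (W : Submodule ℚ (QX p a c r)),
    Algebra.EssFiniteType (RatFunc k) N → Algebra.trdeg (RatFunc k) N = r →
    Good p a c r I z → (∀ i ∉ I, ρ i = 0) → (ρ = 0 → ε = 0) →
    (∀ d : k, κ (RatFunc.C d) = RatFunc.C (algebraMap k N d)) →
    At0 (κ RatFunc.X) (algebraMap (RatFunc k) N RatFunc.X) →
    (∀ i ∈ I, At0 (x' i) (xc z i)) → At0 ε (ec ρ z) →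
    ε ^ p - ε = κ RatFunc.X * ∑ i ∈ I, (ρ i).cast * κ (RatFunc.C (c i)) * x' i ^ a +
      ∑ i ∈ I, (ρ i).cast * x' i →
    (∀ (M : Type) [Field M] [Algebra (RatFunc k) M] (j : RatFunc N →+* M)
      (z' : Fin n ⊕ Fin n → Option M) (v : Place (RatFunc k) M),
      algebraMap (RatFunc k) M = j.comp κ → Algebra.EssFiniteType (RatFunc k) M →
      Algebra.trdeg (RatFunc k) M = r + 1 → (∀ y : M, IsAlgebraic j.fieldRange y) →
      XV p a c M z' → (∀ i ∈ I, z' (Sum.inl i) = some (j (x' i)) ∧ z' (Sum.inr i) ≠ none) →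
      (∀ i ∉ I, z' (Sum.inl i) = none) → ec ρ z' = j ε →
      v.ord (j RatFunc.X) ≠ 0 → XV p a c v.resField (spec v z') →
      Algebra.trdeg (RatFunc k) (fld (RatFunc k) (spec v z')) = r →
      SS p a c r ρ (spec v z') ∈ W ∨ (0 < v.ord (j RatFunc.X) ∧
        key (RatFunc k) (red ρ (spec v z')) = key (RatFunc k) (red ρ z))) →
    SS p a c r ρ z ∈ W

/-- KA-7. `SS 0 z` vanishes modulo `GG` if `r < m`. -/
def Mod0 : Prop :=
  ∀ (N : Type) [Field N] [Algebra (RatFunc k) N] (I : Finset (Fin n))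
    (z : Fin n ⊕ Fin n → Option N), r < I.card → Good p a c r I z →
    SS p a c r 0 z ∈ GG p a c r I.card

/-- KA-7b. `SS 0 z` is unique if `r = m`. -/
def Mod0' : Prop :=
  ∀ (N N' : Type) [Field N] [Field N'] [Algebra (RatFunc k) N] [Algebra (RatFunc k) N']
    (I : Finset (Fin n)) (z : Fin n ⊕ Fin n → Option N) (z' : Fin n ⊕ Fin n → Option N'),
    r = I.card → Good p a c r I z → Good p a c r I z' → SS p a c r 0 z = SS p a c r 0 z'

/-- KA-8. Reduction to vertical points. -/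
def ModV : Prop :=
  ∀ (N : Type) [Field N] [Algebra k N] [Algebra (RatFunc k) N] [IsScalarTower k (RatFunc k) N]
    (I : Finset (Fin n)) (z : Fin n ⊕ Fin n → Option N) (ρ : Fin n → ZMod p),
    Good p a c r I z → (∀ i ∉ I, ρ i = 0) → ρ ≠ 0 →
    SS p a c r ρ z ∈ GG p a c r I.card ⊔ SP p a c r I ρ (fun _ _ _ _ z => Vert k r z) ∧
    (Xc a c ρ z = 0 → Bc ρ z = 0 → SS p a c r ρ z ∈ GG p a c r I.card ⊔
      SP p a c r I ρ (fun _ _ _ _ z => Vert k r z ∧ Xc a c ρ z = 0 ∧ Bc ρ z = 0))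

/-- KA-9a. The automorphism `e ↦ e + 1` for vertical points with `X ≠ 0`. -/
def ModA1 : Prop :=
  ∀ (N : Type) [Field N] [Algebra k N] [Algebra (RatFunc k) N] [IsScalarTower k (RatFunc k) N]
    (I : Finset (Fin n)) (z : Fin n ⊕ Fin n → Option N) (ρ : Fin n → ZMod p),
    Good p a c r I z → (∀ i ∉ I, ρ i = 0) → Vert k r z → Xc a c ρ z ≠ 0 →
    ∀ h : Fin n → ZMod p, key (RatFunc k) (red ρ z) = key (RatFunc k) (red ρ (tr h z))

/-- KA-9b. The automorphism `e ↦ e + 1` for cones with `X = 0` and `B ≠ 0`. -/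
def ModA2 : Prop :=
  ∀ (N : Type) [Field N] [Algebra (RatFunc k) N]
    (I : Finset (Fin n)) (z : Fin n ⊕ Fin n → Option N) (ρ : Fin n → ZMod p),
    Good p a c r I z → (∀ i ∉ I, ρ i = 0) → Con (RatFunc k) r z → Xc a c ρ z = 0 → Bc ρ z ≠ 0 →
    ∀ h : Fin n → ZMod p, key (RatFunc k) (red ρ z) = key (RatFunc k) (red ρ (tr h z))

/-- KA-10. The scaling homotopy. -/
def ModSc : Prop :=
  ∀ (N : Type) [Field N] [Algebra k N] [Algebra (RatFunc k) N] [IsScalarTower k (RatFunc k) N]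
    (I : Finset (Fin n)) (z : Fin n ⊕ Fin n → Option N) (ρ : Fin n → ZMod p),
    Good p a c r I z → (∀ i ∉ I, ρ i = 0) → ρ ≠ 0 → Xc a c ρ z = 0 → Bc ρ z ≠ 0 →
    SS p a c r ρ z ∈ GG p a c r I.card ⊔
      SP p a c r I ρ (fun _ _ _ _ z => Xc a c ρ z = 0 ∧ (Bc ρ z = 0 ∨ Con (RatFunc k) r z))

/-- KA-12. The map from cycles on `YV a c τ` to cycles on `X`. -/
def ModPsi (τ : Fin n → Option (ZMod p)) : Prop :=
  ∃ Ψ : (Key k (Fin n) →₀ ℚ) →ₗ[ℚ] QX p a c r,
    (∀ (N : Type) [Field N] [Algebra k N] [Algebra (RatFunc k) N] [IsScalarTower k (RatFunc k) N]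
      (z : Fin n ⊕ Fin n → Option N), Good p a c r (IT τ) z → Vert k r z →
      Xc a c (RT τ) z = 0 → Bc (RT τ) z = 0 → ec (RT τ) z = 1 →
      YV a c τ N (xpt z) ∧ Algebra.trdeg k (fld k (xpt z)) = r ∧
      SS p a c r (RT τ) z ∈ Submodule.span ℚ {Ψ (Finsupp.single (key k (xpt z)) 1)}) ∧
    ∀ q ∈ rat (YV a c τ) (fun N _ _ x f => YV a c τ N x ∨ (AV a c τ N x ∧ f = Bfun τ x)) r,
      Ψ q ∈ GG p a c r (IT τ).card

end Pool.Agent.Helper1.KA
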