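import Pool.Agent.Helper1.KA.AFin
import Pool.Agent.Helper26.KA.Pos
import Pool.Agent.Helper26.KA.RelSH
import Pool.Agent.Helper26.KA.Ext
import Pool.Agent.Helper33.KA.ModS
import Pool.Agent.Helper7.KA.Hom
import Pool.Agent.Helper67.KA.Mod0
import Pool.Agent.Helper84.KA.VMain
import Pool.Agent.Helper17.KA.ModA
import Pool.Agent.Helper17.KA.Zero
import Pool.Agent.Helper77.KA.ScMain
import Pool.Agent.Helper78.KA.Lift
import Pool.Agent.Helper96.KA.Dim
import Pool.Agent.Helper39.KL.LinStep
import Pool.Agent.Helper66.KA.E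
import Pool.Agent.Helper31.KA.Comb
import Pool.Agent.Helper11.KA.Dec
import Pool.Agent.Helper16.KA.Fin

set_option autoImplicit false

/-!
Project KA (MP_0b9e0b_ag): the main theorem.
-/

namespace Pool.Agent.Helper1.KA

theorem ka_main (k : Type) [Field k] (p a : ℕ) [Fact p.Prime] [CharP k p] (ha : 2 ≤ a) (n : ℕ)
    (c : Fin n → k) (hc : ∀ i, c i ≠ 0) (r : ℕ) : Main k p a n c r := by
  have ha0 : a ≠ 0 := by omega
  have hPos : ModPos k p a c r := Helper26.KA.modPos k p a c r
  have hS : ModS k p a c r := Helper33.KA.modS k p a c r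
  have hLift : ModLift k p a c := Helper78.KA.modLift k p a c
  have hHom : ModHom k p a c r := Helper7.KA.modHom k p a c r hPos hS hLift
  have h0 : Mod0 k p a c r := Helper67.KA.mod0 hHom
  have hDim : ModDim k p a c r := modDim
  have h0' : Mod0' k p a c r := mod0'_of_modS hS
  have hV : ModV k p a c r := Helper84.KA.modV ha0 hHom
  have hA1 : ModA1 k p a c r := Helper17.KA.modA1 k p a c r ha0
  have hA2 : ModA2 k p a c r := Helper17.KA.modA2 k p a c r ha0
  have hSc : ModSc k p a c r := Helper77.KA.modSc ha0 hHom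
  have hE : ModE k p a c r := Helper66.KA.modE ha0
  have hComb : ModComb k p a c r := Helper31.KA.modComb hV hA1 hA2 hSc hS hE
  have hDec : ModDec k p a c r := Helper11.KA.modDec
  have hPsi : ∀ τ, ModPsi k p a c r τ := fun τ => Helper16.KAP.modPsi k p a c r ha hc τ
  exact main_of hDec hComb hDim h0 h0' hPsi Helper39.KL.linStep

end Pool.Agent.Helper1.KA
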