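import Pool.Agent.Helper1.KA.Defs
import Pool.Agent.Helper1.KL.Base

set_option autoImplicit false

/-!
Project KA (MP_0b9e0b_ag): auxiliary definitions for the proof (not used in the statement).

The notions `aff`, `xc`, `yc`, `tr`, `ec`, `red`, `xpt`, `perp`, `Prp`, `ratf`, `Vert`, `Con`,
`At0`, `Quo`, `cls` are those of `KL.Base` (they do not depend on the curves); to be used with
`open Pool.Agent.Helper1.KL (aff xc yc tr ec red xpt perp Prp ratf Vert Con At0 Quo cls)`.
The notions below replace those of `KL.Base` with the same names.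
-/

namespace Pool.Agent.Helper1.KA

open Pool.Agent.Helper16
open Pool.Agent.Helper1.KL (Var VarF Key key fld spec cyc relations rat CH coef Idx)
open Pool.Agent.Helper1.KL (aff xc yc tr ec red xpt perp Prp ratf Vert Con At0 Quo cls)

/-! ### Points of the product of the curves -/

section X

variable {k : Type} [Field k] (p a : ℕ) {n : ℕ} (c : Fin n → k) (r : ℕ)

/-- Cycles on `X` modulo the relations. -/
abbrev QX : Type := Quo (XV p a c) (fun N _ _ z _ => XV p a c N z) r

/-- The class of a point of `X`. -/
noncomputable abbrev cl {N : Type} [Field N] [Algebra (RatFunc k) N]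
    (z : Fin n ⊕ Fin n → Option N) : QX p a c r :=
  cls (XV p a c) (fun N _ _ z _ => XV p a c N z) r z

end X

section Points

variable {n : ℕ} {N : Type} [Field N]

/-- `∑ ρ_i c_i x_i ^ a`. -/
noncomputable def Xc {k : Type} [Field k] [Algebra (RatFunc k) N] {p : ℕ} (a : ℕ) (c : Fin n → k)
    (ρ : Fin n → ZMod p) (z : Fin n ⊕ Fin n → Option N) : N :=
  ∑ i, (ρ i).cast * algebraMap (RatFunc k) N (RatFunc.C (c i)) * xc z i ^ a

/-- `∑ ρ_i x_i`. -/
def Bc {p : ℕ} (ρ : Fin n → ZMod p) (z : Fin n ⊕ Fin n → Option N) : N :=
  ∑ i, (ρ i).cast * xc z i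

end Points

section Classes

variable {k : Type} [Field k] (p a : ℕ) {n : ℕ} (c : Fin n → k) (r : ℕ)

/-- The sum of the classes of the translates of `z` by the elements of `H`. -/
noncomputable def SH (H : Finset (Fin n → ZMod p)) {N : Type} [Field N] [Algebra (RatFunc k) N]
    (z : Fin n ⊕ Fin n → Option N) : QX p a c r :=
  ∑ h ∈ H, cl p a c r (tr h z)

/-- The sum of the classes of the translates of `z` by the complement of `ρ`. -/
noncomputable abbrev SS [NeZero p] (ρ : Fin n → ZMod p) {N : Type} [Field N]
    [Algebra (RatFunc k) N] (z : Fin n ⊕ Fin n → Option N) : QX p a c r :=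
  SH p a c r (perp ρ) z

/-- `z` is a point of dimension `r` of `X` over `N` whose affine coordinates are those with an
index in `I`, and all other coordinates are infinite. -/
structure Good (I : Finset (Fin n)) {N : Type} [Field N] [Algebra (RatFunc k) N]
    (z : Fin n ⊕ Fin n → Option N) : Prop where
  mem : XV p a c N z
  aff : ∀ i ∈ I, z (Sum.inr i) ≠ none
  inf : ∀ i ∉ I, z (Sum.inl i) = none
  dim : Algebra.trdeg (RatFunc k) (fld (RatFunc k) z) = r

/-- The span of the classes of the points of dimension `r` with less than `m` affine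
coordinates. -/
noncomputable def GG (m : ℕ) : Submodule ℚ (QX p a c r) :=
  Submodule.span ℚ {q | ∃ (N : Type) (_ : Field N) (_ : Algebra (RatFunc k) N)
    (z : Fin n ⊕ Fin n → Option N), XV p a c N z ∧
    Algebra.trdeg (RatFunc k) (fld (RatFunc k) z) = r ∧ (aff z).card < m ∧ q = cl p a c r z}

/-- The span of the sums `SS ρ z`, for the points `z` of dimension `r` with `Good I z` and with
the property `P`. -/
noncomputable def SP [NeZero p] (I : Finset (Fin n)) (ρ : Fin n → ZMod p) (P : Prp k n) :
    Submodule ℚ (QX p a c r) :=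
  Submodule.span ℚ {q | ∃ (N : Type) (_ : Field N) (_ : Algebra k N) (_ : Algebra (RatFunc k) N)
    (_ : IsScalarTower k (RatFunc k) N) (z : Fin n ⊕ Fin n → Option N), Good p a c r I z ∧
    P N z ∧ q = SS p a c r ρ z}

end Classes

end Pool.Agent.Helper1.KA
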