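import Pool.Agent.Helper1.KL.Defs

set_option autoImplicit false

/-!
Project KA (MP_0b9e0b_ag): products of the curves `y ^ p - y = t c x ^ a + x`. Definitions.
-/

namespace Pool.Agent.Helper1.KA

open Pool.Agent.Helper16
open Pool.Agent.Helper1.KL (Var VarF Key key fld spec cyc relations rat CH coef Idx)

/-- `(x, y)` is a point of the curve `y ^ p - y = t c x ^ a + x` or its point at infinity. -/
def Curve (p a : ℕ) {N : Type} [Field N] (t c : N) (x y : Option N) : Prop :=
  (x = none ∧ y = none) ∨ ∃ u w : N, x = some u ∧ y = some w ∧ w ^ p - w = t * c * u ^ a + u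

/-- The product `X` over `k(t)` of the curves `y ^ p - y = t c i x ^ a + x`; the coordinates of
the factor with number `i` are `z (Sum.inl i)` and `z (Sum.inr i)`. -/
def XV {k : Type} [Field k] (p a : ℕ) {n : ℕ} (c : Fin n → k) :
    Var (RatFunc k) (Fin n ⊕ Fin n) :=
  fun N _ _ z => ∀ i, Curve p a (algebraMap (RatFunc k) N RatFunc.X)
    (algebraMap (RatFunc k) N (RatFunc.C (c i))) (z (Sum.inl i)) (z (Sum.inr i))

/-- `∑ ρ_i x_i`. -/
def Bfun {p n : ℕ} (τ : Fin n → Option (ZMod p)) {N : Type} [Field N] (x : Fin n → Option N) : N :=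
  ∑ i, (coef τ i : N) * (x i).getD 0

/-- The points `x` with `x i = ∞` if `τ i` is `none`, `x i` finite otherwise, and
`∑ ρ_i c_i x_i ^ a = 0`. -/
def AV {k : Type} [Field k] (a : ℕ) {p n : ℕ} (c : Fin n → k) (τ : Fin n → Option (ZMod p)) :
    Var k (Fin n) :=
  fun N _ _ x => (∀ i, τ i = none ↔ x i = none) ∧
    ∑ i, (coef τ i : N) * algebraMap k N (c i) * (x i).getD 0 ^ a = 0

/-- The points of `AV` with `∑ ρ_i x_i = 0`. -/
def YV {k : Type} [Field k] (a : ℕ) {p n : ℕ} (c : Fin n → k) (τ : Fin n → Option (ZMod p)) :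
    Var k (Fin n) :=
  fun N _ _ x => AV a c τ N x ∧ Bfun τ x = 0

/-- The Chow group of `X`. -/
abbrev CHX {k : Type} [Field k] (p a : ℕ) {n : ℕ} (c : Fin n → k) (r : ℕ) : Type :=
  CH (XV p a c) (fun N _ _ z _ => XV p a c N z) r

/-- The Chow group of `YV a c τ` modulo the divisors of the function `∑ ρ_i x_i` on the
subvarieties of `AV a c τ`. -/
abbrev CHY {k : Type} [Field k] (a : ℕ) {p n : ℕ} (c : Fin n → k)
    (τ : Fin n → Option (ZMod p)) (r : ℕ) : Type :=
  CH (YV a c τ) (fun N _ _ x f => YV a c τ N x ∨ (AV a c τ N x ∧ f = Bfun τ x)) r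

/-- The theorem to be proved. -/
def Main (k : Type) [Field k] (p a : ℕ) [Fact p.Prime] (n : ℕ) (c : Fin n → k) (r : ℕ) : Prop :=
  open scoped Classical in
  Module.rank ℚ (CHX p a c r) ≤ (n.choose r : Cardinal.{0}) +
    ∑ τ : Fin n → Option (ZMod p) with τ ∈ Idx p n, Module.rank ℚ (CHY a c τ r)

end Pool.Agent.Helper1.KA
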