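import Pool.Agent.Helper1.KA.Stmts
import Pool.Agent.Helper1.KL.GeneralB

set_option autoImplicit false

/-!
Project KA (MP_0b9e0b_ag), KA-1: basic facts on points of `X`.
-/

namespace Pool.Agent.Helper1.KA

open Pool.Agent.Helper16
open Pool.Agent.Helper1.KL (Var VarF Key key fld spec cyc relations rat CH coef Idx)
open Pool.Agent.Helper1.KL (aff xc yc tr ec red xpt perp Prp ratf Vert Con At0 Quo cls IT RT)
open Pool.Agent.Helper1.KL (key_eq_iff getD_map key_map mem_fld getD_mem_fld fld_eq_range fld_map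
  trdeg_fld_map restr restr_map key_restr fld_restr trdeg_fld_restr exists_hom_of_key
  trdeg_eq_of_key charP_ratFunc charP_alg cast_pow_p)

/-! ### Points of `X` -/

section X

variable {k : Type} [Field k] {p a : ℕ} {n : ℕ} {c : Fin n → k}

theorem curve_map {N N' : Type} [Field N] [Field N'] (φ : N →+* N') (t d : N) (x y : Option N) :
    Curve p a (φ t) (φ d) (x.map φ) (y.map φ) ↔ Curve p a t d x y := by
  unfold Curve
  constructor
  · rintro (⟨h1, h2⟩ | ⟨u, w, h1, h2, h3⟩)
    · left
      exact ⟨by simpa using h1, by simpa using h2⟩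
    · right
      cases x with
      | none => simp at h1
      | some x =>
        cases y with
        | none => simp at h2
        | some y =>
          simp only [Option.map_some, Option.some.injEq] at h1 h2
          subst h1 h2
          refine ⟨x, y, rfl, rfl, φ.injective ?_⟩
          simpa using h3
  · rintro (⟨h1, h2⟩ | ⟨u, w, h1, h2, h3⟩)
    · left
      subst h1 h2
      exact ⟨rfl, rfl⟩
    · right
      subst h1 h2
      refine ⟨φ u, φ w, rfl, rfl, ?_⟩
      rw [← map_pow, ← map_sub, h3]
      simp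

theorem XV_map {N N' : Type} [Field N] [Field N'] [Algebra (RatFunc k) N]
    [Algebra (RatFunc k) N'] (φ : N →ₐ[RatFunc k] N') (z : Fin n ⊕ Fin n → Option N) :
    XV p a c N' (fun j => (z j).map φ) ↔ XV p a c N z := by
  unfold XV
  refine forall_congr' fun i => ?_
  have := curve_map (p := p) (a := a) (φ : N →+* N') (algebraMap (RatFunc k) N RatFunc.X)
    (algebraMap (RatFunc k) N (RatFunc.C (c i))) (z (Sum.inl i)) (z (Sum.inr i))
  rw [← this]
  simp only [RingHom.coe_coe, AlgHom.commutes]

theorem XV_restr {N : Type} [Field N] [Algebra (RatFunc k) N] {z : Fin n ⊕ Fin n → Option N}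
    (hz : XV p a c N z) : XV p a c (fld (RatFunc k) z) (restr (RatFunc k) z) := by
  rw [← XV_map (fld (RatFunc k) z).val, restr_map]
  exact hz

/-- The two kinds of coordinates of a point of `X`. -/
theorem XV.cases {N : Type} [Field N] [Algebra (RatFunc k) N] {z : Fin n ⊕ Fin n → Option N}
    (hz : XV p a c N z) (i : Fin n) :
    (z (Sum.inl i) = none ∧ z (Sum.inr i) = none ∧ xc z i = 0 ∧ yc z i = 0) ∨
      (z (Sum.inl i) = some (xc z i) ∧ z (Sum.inr i) = some (yc z i) ∧
        yc z i ^ p - yc z i = algebraMap (RatFunc k) N RatFunc.X *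
          algebraMap (RatFunc k) N (RatFunc.C (c i)) * xc z i ^ a + xc z i) := by
  rcases hz i with ⟨h1, h2⟩ | ⟨u, w, h1, h2, h3⟩
  · left
    exact ⟨h1, h2, by simp [xc, h1], by simp [yc, h2]⟩
  · right
    have e1 : xc z i = u := by simp [xc, h1]
    have e2 : yc z i = w := by simp [yc, h2]
    rw [e1, e2]
    exact ⟨h1, h2, h3⟩

/-- The Artin-Schreier equation of `e`. -/
theorem as_eq [Fact p.Prime] [CharP k p] (ha : a ≠ 0) {N : Type} [Field N]
    [Algebra (RatFunc k) N] {z : Fin n ⊕ Fin n → Option N} (hz : XV p a c N z)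
    (ρ : Fin n → ZMod p) :
    ec ρ z ^ p - ec ρ z = algebraMap (RatFunc k) N RatFunc.X * Xc a c ρ z + Bc ρ z := by
  have := charP_alg (k := k) (p := p) N
  unfold ec Xc Bc
  rw [sum_pow_char p, ← Finset.sum_sub_distrib, Finset.mul_sum, ← Finset.sum_add_distrib]
  refine Finset.sum_congr rfl fun i _ => ?_
  rw [mul_pow, cast_pow_p, ← mul_sub]
  rcases hz.cases i with ⟨-, -, h2, h3⟩ | ⟨-, -, h⟩
  · rw [h2, h3, zero_pow (Fact.out : p.Prime).ne_zero, zero_pow ha]
    ring
  · rw [h]
    ring

end X

end Pool.Agent.Helper1.KA
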