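import Pool.Agent.Helper1.KA.Stmts
import Pool.Agent.Helper1.KL.Stmts2

set_option autoImplicit false

/-!
Project KA (MP_0b9e0b_ag): the statements of the modules, second part (KA-14). The linear
algebra `KL.LinStep` is reused.
-/

namespace Pool.Agent.Helper1.KA

open Pool.Agent.Helper16
open Pool.Agent.Helper1.KL (Var VarF Key key fld spec cyc relations rat CH coef Idx)
open Pool.Agent.Helper1.KL (aff xc yc tr ec red xpt perp Prp ratf Vert Con At0 Quo cls IT RT)

variable (k : Type) [Field k] (p a : ℕ) [Fact p.Prime] [CharP k p] {n : ℕ} (c : Fin n → k) (r : ℕ)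

/-- The span of the classes of the good points for `I`. -/
noncomputable def GI (I : Finset (Fin n)) : Submodule ℚ (QX p a c r) :=
  Submodule.span ℚ {q | ∃ (N : Type) (_ : Field N) (_ : Algebra k N) (_ : Algebra (RatFunc k) N)
    (_ : IsScalarTower k (RatFunc k) N) (z : Fin n ⊕ Fin n → Option N), Good p a c r I z ∧
    q = cl p a c r z}

/-- KA-14a. -/
def ModDec : Prop :=
  ∀ m : ℕ, GG p a c r (m + 1) ≤
    GG p a c r m ⊔ ⨆ (I : Finset (Fin n)) (_ : I.card = m), GI k p a c r I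

/-- The property of the final points. -/
def P1 (ρ : Fin n → ZMod p) : Prp k n :=
  fun _ _ _ _ z => Vert k r z ∧ Xc a c ρ z = 0 ∧ Bc ρ z = 0 ∧ ec ρ z = 1

/-- KA-14b. The final points with `e = c`. -/
def ModE : Prop :=
  ∀ (N : Type) [Field N] [Algebra k N] [Algebra (RatFunc k) N] [IsScalarTower k (RatFunc k) N]
    (I : Finset (Fin n)) (z : Fin n ⊕ Fin n → Option N) (ρ : Fin n → ZMod p),
    Good p a c r I z → (∀ i ∉ I, ρ i = 0) → ρ ≠ 0 → Vert k r z → Xc a c ρ z = 0 → Bc ρ z = 0 →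
    SS p a c r ρ z ∈ Submodule.span ℚ {SS p a c r 0 z} ⊔
      ⨆ (d : ZMod p) (_ : d ≠ 0), SP p a c r I (d • ρ) (P1 k p a c r (d • ρ))

/-- KA-14c. All classes of good points. -/
def ModComb : Prop :=
  ∀ I : Finset (Fin n), GI k p a c r I ≤
    GG p a c r I.card ⊔ SP p a c r I 0 (fun _ _ _ _ _ => True) ⊔
    ⨆ (ρ : Fin n → ZMod p) (_ : ρ ≠ 0) (_ : ∀ i ∉ I, ρ i = 0),
      SP p a c r I ρ (P1 k p a c r ρ)

/-- KA-14d. The dimension of a good point. -/
def ModDim : Prop :=
  ∀ (N : Type) [Field N] [Algebra (RatFunc k) N] (I : Finset (Fin n))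
    (z : Fin n ⊕ Fin n → Option N), Good p a c r I z → r ≤ I.card

end Pool.Agent.Helper1.KA
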